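import Pool.Agent.W2helper81.IW.Defs

/-!
# Piece SHA of helper81's project IW (MP_519cc8_nt): a Shapiro lemma for unramified cocycles
-/

set_option autoImplicit false

namespace Pool.Agent.W2helper15.IW

open IntermediateField Module Pool.Agent.Q60.MU Pool.Agent.W5h77.MB Pool.Agent.W2helper81.IW
open scoped Pointwise Topology

section abs

variable {H X A : Type*} [Group H] [MulAction H X] [AddCommGroup A]

/-- the cocycle induced from a homomorphism of the stabiliser -/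
theorem abs_cocycle (x0 : X) (χ : H → A)
    (hχ : ∀ g h : H, g • x0 = x0 → h • x0 = x0 → χ (g * h) = χ g + χ h) :
    ∃ c : H → X → A, (∀ g h y, c (g * h) y = c g y + c h (g⁻¹ • y)) ∧
      (∀ h, h • x0 = x0 → c h x0 = χ h) ∧
      (∀ h y, h • y = y → c h y = 0 ∨ ∃ s : H, c h y = χ (s⁻¹ * h * s)) := by
  classical
  have hs : ∃ s : X → H, s x0 = 1 ∧ ∀ y, y ∈ MulAction.orbit H x0 → s y • x0 = y := by
    refine ⟨fun y => if y = x0 then 1 else
      if h' : y ∈ MulAction.orbit H x0 then h'.choose else 1, by simp, ?_⟩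
    intro y hy
    by_cases h : y = x0
    · simp [h]
    · simp only [h, hy, if_false, dif_pos]
      exact hy.choose_spec
  obtain ⟨s, hs0, hs⟩ := hs
  have horb : ∀ (g : H) (y : X), g⁻¹ • y ∈ MulAction.orbit H x0 ↔ y ∈ MulAction.orbit H x0 := by
    intro g y
    constructor
    · rintro ⟨k, hk⟩
      refine ⟨g * k, ?_⟩
      have hk' : k • x0 = g⁻¹ • y := hk
      show (g * k) • x0 = y
      rw [mul_smul, hk', smul_inv_smul]
    · rintro ⟨k, hk⟩
      refine ⟨g⁻¹ * k, ?_⟩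
      have hk' : k • x0 = y := hk
      show (g⁻¹ * k) • x0 = g⁻¹ • y
      rw [mul_smul, hk']
  refine ⟨fun h y => if y ∈ MulAction.orbit H x0 then χ ((s y)⁻¹ * h * s (h⁻¹ • y)) else 0,
    ?_, ?_, ?_⟩
  · intro g h y
    by_cases hy : y ∈ MulAction.orbit H x0
    · have hy1 : g⁻¹ • y ∈ MulAction.orbit H x0 := (horb g y).2 hy
      have hy2 : h⁻¹ • g⁻¹ • y ∈ MulAction.orbit H x0 := (horb h _).2 hy1
      simp only [hy, hy1, if_true]
      rw [mul_inv_rev, mul_smul, ← hχ]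
      · congr 1
        group
      · rw [mul_smul, mul_smul, hs _ hy1, smul_inv_smul, inv_smul_eq_iff, hs _ hy]
      · rw [mul_smul, mul_smul, hs _ hy2, smul_inv_smul, inv_smul_eq_iff, hs _ hy1]
    · have hy1 : g⁻¹ • y ∉ MulAction.orbit H x0 := fun h' => hy ((horb g y).1 h')
      simp only [hy, hy1, if_false, add_zero]
  · intro h hh
    have hh' : h⁻¹ • x0 = x0 := by rw [inv_smul_eq_iff, hh]
    have h0 : x0 ∈ MulAction.orbit H x0 := MulAction.mem_orbit_self x0
    simp only [h0, if_true, hh', hs0]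
    simp
  · intro h y hy
    have hy' : h⁻¹ • y = y := by rw [inv_smul_eq_iff, hy]
    by_cases hyo : y ∈ MulAction.orbit H x0
    · right
      refine ⟨s y, ?_⟩
      simp only [hyo, if_true, hy']
    · left
      simp only [hyo, if_false]

/-- a cocycle which vanishes on the stabilisers is a coboundary -/
theorem abs_cob (c : H → X → A) (hc : ∀ g h y, c (g * h) y = c g y + c h (g⁻¹ • y))
    (J : Subgroup H) (hJ : ∀ j ∈ J, ∀ y, j • y = y → c j y = 0) :
    ∃ w : X → A, ∀ j ∈ J, ∀ y, c j y = w (j⁻¹ • y) - w y := by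
  classical
  have hk : ∀ y : X, ∃ k : J, k • (Quotient.mk (MulAction.orbitRel J X) y).out = y := by
    intro y
    have h1 : (MulAction.orbitRel J X) ((Quotient.mk (MulAction.orbitRel J X) y).out) y :=
      Quotient.mk_out (s := MulAction.orbitRel J X) y
    have h2 : y ∈ MulAction.orbit J ((Quotient.mk (MulAction.orbitRel J X) y).out) :=
      MulAction.orbitRel_apply.1 ((MulAction.orbitRel J X).symm h1)
    exact h2
  choose k hk using hk
  have key : ∀ (u v : H) (r y : X), u ∈ J → v ∈ J → u • r = y → v • r = y → c v y = c u y := by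
    intro u v r y hu hv h1 h2
    have e : v = u * (u⁻¹ * v) := by group
    have h3 : (u⁻¹ * v) • r = r := by
      rw [mul_smul, h2, inv_smul_eq_iff, h1]
    have h4 : u⁻¹ • y = r := by rw [inv_smul_eq_iff, h1]
    rw [e, hc, h4, hJ _ (J.mul_mem (J.inv_mem hu) hv) _ h3, add_zero]
  refine ⟨fun y => - c (k y : H) y, ?_⟩
  intro j hj y
  have hq : Quotient.mk (MulAction.orbitRel J X) (j⁻¹ • y) = Quotient.mk (MulAction.orbitRel J X) y := by
    apply Quotient.sound (s := MulAction.orbitRel J X)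
    show (MulAction.orbitRel J X) _ _
    rw [MulAction.orbitRel_apply]
    exact ⟨⟨j⁻¹, J.inv_mem hj⟩, rfl⟩
  have h1 := hk (j⁻¹ • y)
  rw [hq] at h1
  have h1' : (k (j⁻¹ • y) : H) • (Quotient.mk (MulAction.orbitRel J X) y).out = j⁻¹ • y := h1
  have h2 : (k y : H) • (Quotient.mk (MulAction.orbitRel J X) y).out = y := hk y
  have h3 : (j * (k (j⁻¹ • y) : H)) • (Quotient.mk (MulAction.orbitRel J X) y).out = y := by
    rw [mul_smul, h1', smul_inv_smul]
  have h4 := key _ _ _ _ (k y).2 (J.mul_mem hj (k (j⁻¹ • y)).2) h2 h3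
  rw [hc] at h4
  show c j y = - c (k (j⁻¹ • y) : H) (j⁻¹ • y) - (- c (k y : H) y)
  rw [← h4]
  abel

end abs

/-- every open subgroup contains the group of a finite normal field -/
theorem exists_normal (V : Subgroup Gal(Qb/ℚ)) (hV : IsOpen (V : Set Gal(Qb/ℚ))) :
    ∃ N : IntermediateField ℚ Qb, FiniteDimensional ℚ N ∧ N.fixingSubgroup.Normal ∧
      N.fixingSubgroup ≤ V := by
  have h1 : (V : Set Gal(Qb/ℚ)) ∈ 𝓝 (1 : Gal(Qb/ℚ)) := hV.mem_nhds V.one_mem
  rw [InfiniteGalois.krullTopology_mem_nhds_one_iff_of_isGalois] at h1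
  obtain ⟨N, hN3⟩ := h1
  refine ⟨N.1, inferInstance, ?_, hN3⟩
  have := N.isGalois
  infer_instance

theorem fix_open (E : IntermediateField ℚ Qb) [FiniteDimensional ℚ E] :
    IsOpen (E.fixingSubgroup : Set Gal(Qb/ℚ)) := E.fixingSubgroup_isOpen

/-- the groups of normal fields act trivially on the cosets -/
theorem triv_act {K E N : IntermediateField ℚ Qb} (hN : N.fixingSubgroup.Normal)
    (hNE : N.fixingSubgroup ≤ E.fixingSubgroup) (g : K.fixingSubgroup)
    (hg : (g : Gal(Qb/ℚ)) ∈ N.fixingSubgroup) (x : K.fixingSubgroup ⧸ GalOf K E) :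
    g • x = x := by
  induction x using QuotientGroup.induction_on with
  | H x =>
    show ((g * x : K.fixingSubgroup) : K.fixingSubgroup ⧸ GalOf K E) = x
    rw [eq_comm, QuotientGroup.eq]
    show ((x⁻¹ * (g * x) : K.fixingSubgroup) : Gal(Qb/ℚ)) ∈ E.fixingSubgroup
    apply hNE
    have h := hN.conj_mem _ hg (x : Gal(Qb/ℚ))⁻¹
    rw [inv_inv] at h
    push_cast
    rwa [← mul_assoc]

theorem cont (p : ℕ) (K E : IntermediateField ℚ Qb) [FiniteDimensional ℚ E] :
    IsCont (perm p K E) := by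
  obtain ⟨N, h1, h2, h3⟩ := exists_normal E.fixingSubgroup (fix_open E)
  refine ⟨N, h1, ?_⟩
  intro g hg φ
  funext x
  show φ (g⁻¹ • x) = φ x
  rw [triv_act h2 h3 g⁻¹ (N.fixingSubgroup.inv_mem hg) x]

theorem idx (K E : IntermediateField ℚ Qb) (hKE : K ≤ E) :
    finrank ℚ K * (GalOf K E).index = finrank ℚ E := by
  rw [finrank_eq_fixingSubgroup_index Qb K, finrank_eq_fixingSubgroup_index Qb E, mul_comm]
  exact Subgroup.relIndex_mul_index (IntermediateField.fixingSubgroup_le hKE)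

theorem fin_quot (K E : IntermediateField ℚ Qb) [FiniteDimensional ℚ E] (hKE : K ≤ E) :
    Finite (K.fixingSubgroup ⧸ GalOf K E) := by
  have h1 : (GalOf K E).index ≠ 0 := by
    intro h
    have h2 := idx K E hKE
    rw [h, mul_zero] at h2
    exact (finrank_pos (R := ℚ) (M := E)).ne h2
  exact (Subgroup.finiteIndex_iff_finite_quotient (H := GalOf K E)).1 ⟨h1⟩

/-- Main part. -/
theorem main (p : ℕ) (K E : IntermediateField ℚ Qb) [FiniteDimensional ℚ K]
    [FiniteDimensional ℚ E] (hKE : K ≤ E) (R : IntermediateField ℚ Qb) [FiniteDimensional ℚ R]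
    (χ : (E ⊔ R).fixingSubgroup → ZMod p) (hχ : χ ∈ Hom p (E ⊔ R)) :
    ∃ c ∈ Coc (perm p K E) (K ⊔ R), ∀ (h : GalOf K (K ⊔ R))
      (hh : ((h : K.fixingSubgroup) : Gal(Qb/ℚ)) ∈ (E ⊔ R).fixingSubgroup),
        c h ((1 : K.fixingSubgroup) : K.fixingSubgroup ⧸ GalOf K E) = χ ⟨_, hh⟩ := by
  classical
  obtain ⟨h1, ⟨V, hVo, hV⟩, h3⟩ := hχ
  set x0 : K.fixingSubgroup ⧸ GalOf K E := ((1 : K.fixingSubgroup) : K.fixingSubgroup ⧸ GalOf K E)
    with hx0
  -- stabiliser of the base point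
  have hstab : ∀ g : GalOf K (K ⊔ R), g • x0 = x0 ↔
      ((g : K.fixingSubgroup) : Gal(Qb/ℚ)) ∈ (E ⊔ R).fixingSubgroup := by
    intro g
    have e : g • x0 = (((g : K.fixingSubgroup) * 1 : K.fixingSubgroup) :
      K.fixingSubgroup ⧸ GalOf K E) := rfl
    rw [e, mul_one, hx0, eq_comm, QuotientGroup.eq]
    have hgR : ((g : K.fixingSubgroup) : Gal(Qb/ℚ)) ∈ (K ⊔ R).fixingSubgroup := g.2
    rw [fixingSubgroup_sup] at hgR
    rw [fixingSubgroup_sup]
    constructor
    · intro h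
      refine ⟨?_, hgR.2⟩
      have h' : ((1 : K.fixingSubgroup)⁻¹ * (g : K.fixingSubgroup)) ∈ GalOf K E := h
      rw [inv_one, one_mul] at h'
      exact h'
    · intro h
      show ((1 : K.fixingSubgroup)⁻¹ * (g : K.fixingSubgroup)) ∈ GalOf K E
      rw [inv_one, one_mul]
      exact h.1
  let ψ : GalOf K (K ⊔ R) → ZMod p := fun g =>
    if hg : ((g : K.fixingSubgroup) : Gal(Qb/ℚ)) ∈ (E ⊔ R).fixingSubgroup then χ ⟨_, hg⟩ else 0
  have hψ : ∀ g h : GalOf K (K ⊔ R), g • x0 = x0 → h • x0 = x0 → ψ (g * h) = ψ g + ψ h := by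
    intro g h hg hh
    have hg' := (hstab g).1 hg
    have hh' := (hstab h).1 hh
    have hgh : (((g * h : GalOf K (K ⊔ R)) : K.fixingSubgroup) : Gal(Qb/ℚ)) ∈
      (E ⊔ R).fixingSubgroup := (E ⊔ R).fixingSubgroup.mul_mem hg' hh'
    simp only [ψ]
    rw [dif_pos hgh, dif_pos hg', dif_pos hh']
    exact h1 ⟨_, hg'⟩ ⟨_, hh'⟩
  obtain ⟨c, hc1, hc2, hc3⟩ := abs_cocycle x0 ψ hψ
  refine ⟨c, ⟨?_, ?_, ?_⟩, ?_⟩
  · intro g h
    funext y
    exact hc1 g h y
  · obtain ⟨N1, a1, a2, a3⟩ := exists_normal (V ⊓ E.fixingSubgroup) (hVo.inter (fix_open E))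
    refine ⟨N1.fixingSubgroup, @fix_open N1 a1, ?_⟩
    intro g hg
    funext y
    have hy : g • y = y := triv_act a2 (a3.trans inf_le_right) (g : K.fixingSubgroup) hg y
    rcases hc3 g y hy with h | ⟨s, h⟩
    · exact h
    · rw [h]
      show ψ _ = 0
      simp only [ψ]
      split_ifs with hm
      · apply hV
        apply (a3.trans inf_le_left)
        have h5 := a2.conj_mem _ hg (((s : K.fixingSubgroup) : Gal(Qb/ℚ)))⁻¹
        rw [inv_inv] at h5
        exact h5
      · rfl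
  · intro A
    obtain ⟨w, hw⟩ := abs_cob c hc1 ((inertia A).comap
      ((K.fixingSubgroup.subtype).comp (GalOf K (K ⊔ R)).subtype)) (by
        intro j hj y hy
        rcases hc3 j y hy with h | ⟨s, h⟩
        · exact h
        · rw [h]
          simp only [ψ]
          split_ifs with hm
          · apply h3 ((((s : K.fixingSubgroup) : Gal(Qb/ℚ)))⁻¹ • A)
            have h5 := inertia_conj (((s : K.fixingSubgroup) : Gal(Qb/ℚ)))⁻¹ A _ hj
            rw [inv_inv] at h5
            exact h5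
          · rfl)
    refine ⟨w, fun g hg => ?_⟩
    funext y
    exact hw g hg y
  · intro h hh
    rw [hc2 h ((hstab h).2 hh)]
    simp only [ψ]
    rw [dif_pos hh]

/-- **Piece SHA.** -/
theorem SHA_ok : P_SHA := by
  intro p hp K E hK hE hKE
  have hfin : Finite (K.fixingSubgroup ⧸ GalOf K E) := fin_quot K E hKE
  have hpf : Fact p.Prime := ⟨hp⟩
  refine ⟨cont p K E, ?_, hfin, ?_⟩
  · have := Fintype.ofFinite (K.fixingSubgroup ⧸ GalOf K E)
    rw [finrank_fintype_fun_eq_card, ← Nat.card_eq_fintype_card]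
    exact idx K E hKE
  · intro R hR _ C hC
    choose! Φ hΦ1 hΦ2 using fun χ (hχ : χ ∈ Hom p (E ⊔ R)) => main p K E hKE R χ hχ
    have hinj : Set.InjOn Φ (Hom p (E ⊔ R)) := by
      intro χ1 h1 χ2 h2 h12
      funext g
      have hgE : (g : Gal(Qb/ℚ)) ∈ E.fixingSubgroup ⊓ R.fixingSubgroup := by
        rw [← fixingSubgroup_sup]; exact g.2
      have hgK : (g : Gal(Qb/ℚ)) ∈ K.fixingSubgroup :=
        IntermediateField.fixingSubgroup_le hKE hgE.1
      have hgKR : (⟨(g : Gal(Qb/ℚ)), hgK⟩ : K.fixingSubgroup) ∈ GalOf K (K ⊔ R) := by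
        show (g : Gal(Qb/ℚ)) ∈ (K ⊔ R).fixingSubgroup
        rw [fixingSubgroup_sup]
        exact ⟨hgK, hgE.2⟩
      have e1 := hΦ2 χ1 h1 ⟨⟨(g : Gal(Qb/ℚ)), hgK⟩, hgKR⟩ g.2
      have e2 := hΦ2 χ2 h2 ⟨⟨(g : Gal(Qb/ℚ)), hgK⟩, hgKR⟩ g.2
      rw [h12] at e1
      exact e1.symm.trans e2
    exact ⟨Set.Finite.of_injOn (fun χ hχ => hΦ1 χ hχ) hinj hC.1,
      (Set.ncard_le_ncard_of_injOn Φ (fun χ hχ => hΦ1 χ hχ) hinj hC.1).trans hC.2⟩

end Pool.Agent.W2helper15.IW
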